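import Mathlib

/-!
# The label graph of a squared rectangle is connected (helper32)

`h x k` rectangle (height `h`, width `k`), tiles `e` (squares) with columns
`[x e, x e + a e)` and rows `[y e, y e + a e)`.  The label graph has the `k` columns and the
`h` rows as vertices and one edge, from column `x e + c` to row `y e + c`, for every cell
`(e, c)`, `c < a e`.  It is connected if `gcd h k = 1` or
`sum a = h + k + gcd h k - 2`.
-/

namespace Pool.Agent.Helper32.TI

open Finset

variable {E : Type*}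

/-- number of `i < n` with `c i` -/
noncomputable def cnt (c : ℕ → Prop) (n : ℕ) : ℤ := by
  classical exact ∑ i ∈ range n, if c i then 1 else 0

lemma cnt_zero (c : ℕ → Prop) : cnt c 0 = 0 := by simp [cnt]

lemma cnt_add (c : ℕ → Prop) (n m : ℕ) : cnt c (n + m) - cnt c n = cnt (fun i => c (n + i)) m := by
  classical
  simp only [cnt]
  rw [Finset.sum_range_add]
  ring_nf

lemma cnt_congr {c d : ℕ → Prop} {n : ℕ} (hcd : ∀ i < n, (c i ↔ d i)) : cnt c n = cnt d n := by
  classical
  simp only [cnt]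
  refine Finset.sum_congr rfl fun i hi => ?_
  have := hcd i (mem_range.1 hi)
  simp [this]

lemma cnt_nonneg (c : ℕ → Prop) (n : ℕ) : 0 ≤ cnt c n := by
  classical
  simp only [cnt]
  refine Finset.sum_nonneg fun i _ => ?_
  split_ifs <;> norm_num

lemma cnt_le (c : ℕ → Prop) (n : ℕ) : cnt c n ≤ n := by
  classical
  simp only [cnt]
  calc ∑ i ∈ range n, (if c i then (1 : ℤ) else 0) ≤ ∑ i ∈ range n, (1 : ℤ) := by
        refine Finset.sum_le_sum fun i _ => ?_
        split_ifs <;> norm_num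
    _ = n := by simp

lemma cnt_eq_zero {c : ℕ → Prop} {n : ℕ} (hz : cnt c n = 0) : ∀ i < n, ¬ c i := by
  classical
  simp only [cnt] at hz
  rw [Finset.sum_eq_zero_iff_of_nonneg (fun i _ => by split_ifs <;> norm_num)] at hz
  intro i hi hci
  have := hz i (mem_range.2 hi)
  simp [hci] at this

lemma cnt_eq_self {c : ℕ → Prop} {n : ℕ} (hz : cnt c n = n) : ∀ i < n, c i := by
  classical
  have h1 : cnt (fun i => ¬ c i) n = 0 := by
    have h2 : cnt (fun i => ¬ c i) n + cnt c n = n := by
      simp only [cnt]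
      rw [← Finset.sum_add_distrib]
      trans ∑ i ∈ range n, (1 : ℤ)
      · refine Finset.sum_congr rfl fun i _ => ?_
        by_cases hci : c i <;> simp [hci]
      · simp
    linarith
  intro i hi
  by_contra hci
  exact cnt_eq_zero h1 i hi hci

/-- Connectivity, from the Stokes form of the partition of the rectangle by the tiles. -/
theorem conn_of_stokes (s : Finset E) (x y a : E → ℕ) (h k : ℕ) (hh : 0 < h) (hk : 0 < k)
    (st : ∀ φ ψ : ℕ → ℤ, ∑ e ∈ s, (φ (x e + a e) - φ (x e)) * (ψ (y e + a e) - ψ (y e))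
      = (φ k - φ 0) * (ψ h - ψ 0))
    (hsum : Nat.gcd h k = 1 ∨ ∑ e ∈ s, a e + 2 = h + k + Nat.gcd h k)
    (cx cy : ℕ → Prop) (hc : ∀ e ∈ s, ∀ c < a e, (cx (x e + c) ↔ cy (y e + c))) :
    ((∀ i < k, cx i) ∧ ∀ j < h, cy j) ∨ ((∀ i < k, ¬ cx i) ∧ ∀ j < h, ¬ cy j) := by
  classical
  set n : E → ℤ := fun e => cnt (fun i => cx (x e + i)) (a e) with hn
  have hnx : ∀ e, cnt cx (x e + a e) - cnt cx (x e) = n e := fun e => cnt_add _ _ _
  have hny : ∀ e ∈ s, cnt cy (y e + a e) - cnt cy (y e) = n e := by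
    intro e he
    rw [cnt_add]
    exact (cnt_congr fun i hi => (hc e he i hi)).symm
  set p : ℤ := cnt cx k with hp
  set q : ℤ := cnt cy h with hq
  have e1 : ∑ e ∈ s, n e * n e = p * q := by
    have := st (cnt cx) (cnt cy)
    rw [cnt_zero, cnt_zero, sub_zero, sub_zero] at this
    rw [← this]
    refine Finset.sum_congr rfl fun e he => ?_
    rw [hnx, hny e he]
  have e2 : ∑ e ∈ s, n e * (a e : ℤ) = p * h := by
    have := st (cnt cx) (fun j => (j : ℤ))
    rw [cnt_zero, sub_zero] at this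
    simp only [Nat.cast_add, add_sub_cancel_left, Nat.cast_zero, sub_zero] at this
    rw [← this]
    refine Finset.sum_congr rfl fun e he => ?_
    rw [hnx]
  have e3 : ∑ e ∈ s, n e * (a e : ℤ) = q * k := by
    have := st (fun j => (j : ℤ)) (cnt cy)
    rw [cnt_zero, sub_zero] at this
    simp only [Nat.cast_add, add_sub_cancel_left, Nat.cast_zero, sub_zero] at this
    rw [mul_comm q, ← this]
    refine Finset.sum_congr rfl fun e he => ?_
    rw [hny e he, mul_comm]
  have e4 : ∑ e ∈ s, (a e : ℤ) * (a e : ℤ) = k * h := by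
    have := st (fun j => (j : ℤ)) (fun j => (j : ℤ))
    simpa only [Nat.cast_add, add_sub_cancel_left, Nat.cast_zero, sub_zero] using this
  have hpq : p * h = q * k := by rw [← e2, e3]
  have e5 : ∑ e ∈ s, ((k : ℤ) * n e - p * a e) ^ 2 = 0 := by
    have : ∀ e ∈ s, ((k : ℤ) * n e - p * a e) ^ 2
        = (k : ℤ) ^ 2 * (n e * n e) - 2 * k * p * (n e * a e) + p ^ 2 * ((a e : ℤ) * a e) := by
      intro e _; ring
    rw [Finset.sum_congr rfl this, Finset.sum_add_distrib, Finset.sum_sub_distrib,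
      ← Finset.mul_sum, ← Finset.mul_sum, ← Finset.mul_sum, e1, e2, e4]
    have : (k : ℤ) ^ 2 * (p * q) - 2 * k * p * (p * h) + p ^ 2 * (k * h)
        = k * p * (q * k - p * h) := by ring
    rw [this, hpq, sub_self, mul_zero]
  have e6 : ∀ e ∈ s, (k : ℤ) * n e = p * a e := by
    rw [Finset.sum_eq_zero_iff_of_nonneg (fun e _ => sq_nonneg _)] at e5
    intro e he
    have := e5 e he
    have := pow_eq_zero_iff (two_ne_zero) |>.1 this
    linarith
  have hp0 : 0 ≤ p := cnt_nonneg _ _
  have hq0 : 0 ≤ q := cnt_nonneg _ _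
  have hpk : p ≤ k := cnt_le _ _
  have hqh : q ≤ h := cnt_le _ _
  have hk' : (0 : ℤ) < k := by exact_mod_cast hk
  have hh' : (0 : ℤ) < h := by exact_mod_cast hh
  -- the two ends
  have fin0 : p = 0 → ((∀ i < k, cx i) ∧ ∀ j < h, cy j) ∨
      ((∀ i < k, ¬ cx i) ∧ ∀ j < h, ¬ cy j) := by
    intro h0
    right
    refine ⟨cnt_eq_zero (by rw [← hp, h0]), cnt_eq_zero ?_⟩
    rw [h0, zero_mul] at hpq
    rcases mul_eq_zero.1 hpq.symm with h1 | h1
    · rw [← hq]; exact h1
    · exact absurd h1 hk'.ne'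
  have fin1 : p = k → ((∀ i < k, cx i) ∧ ∀ j < h, cy j) ∨
      ((∀ i < k, ¬ cx i) ∧ ∀ j < h, ¬ cy j) := by
    intro h0
    left
    refine ⟨cnt_eq_self (by rw [← hp, h0]), cnt_eq_self ?_⟩
    rw [h0, mul_comm] at hpq
    rw [← hq]
    exact (mul_right_cancel₀ hk'.ne' hpq).symm
  -- arithmetic
  have key : ∀ t d h' k' : ℕ, Nat.Coprime h' k' → h = h' * d → k = k' * d → d = Nat.gcd h k →
      p = k' * t → q = h' * t → p = 0 ∨ p = k := by
    intro t d h' k' hcop hhd hkd hdg hpt hqt
    have hd : 0 < d := by rw [hdg]; exact Nat.gcd_pos_of_pos_left _ hh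
    have hk0 : 0 < k' := by
      rcases Nat.eq_zero_or_pos k' with h0 | h0
      · rw [h0, zero_mul] at hkd; omega
      · exact h0
    have htd : t ≤ d := by
      have h1 : ((k' * t : ℕ) : ℤ) ≤ ((k' * d : ℕ) : ℤ) := by
        rw [← hkd]; push_cast; rw [← hpt]; exact hpk
      have h2 : k' * t ≤ k' * d := by exact_mod_cast h1
      exact Nat.le_of_mul_le_mul_left h2 hk0
    rcases hsum with hg | hs
    · rw [← hdg] at hg
      subst hg
      interval_cases t
      · left; simp [hpt]
      · right; rw [hpt, hkd]; simp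
    · rw [← hdg] at hs
      have hN : (k : ℤ) * ∑ e ∈ s, n e = p * ∑ e ∈ s, (a e : ℤ) := by
        rw [Finset.mul_sum, Finset.mul_sum]
        exact Finset.sum_congr rfl e6
      have hs' : (∑ e ∈ s, (a e : ℤ)) = (h' * d + k' * d + d : ℤ) - 2 := by
        have : ((∑ e ∈ s, a e + 2 : ℕ) : ℤ) = ((h + k + d : ℕ) : ℤ) := by rw [hs]
        push_cast at this
        rw [hhd, hkd] at this
        push_cast at this
        linarith
      set N : ℤ := ∑ e ∈ s, n e with hNdef
      rw [hs', hpt, hkd] at hN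
      push_cast at hN
      have hk0' : (k' : ℤ) ≠ 0 := by exact_mod_cast hk0.ne'
      have hN2 : (d : ℤ) * N = t * ((h' * d + k' * d + d : ℤ) - 2) := by
        apply mul_left_cancel₀ hk0'
        linarith
      have hdvd : (d : ℤ) ∣ 2 * t := by
        refine ⟨t * (h' + k' + 1) - N, ?_⟩
        linarith
      have hdvd' : d ∣ 2 * t := by exact_mod_cast hdvd
      obtain ⟨u, hu⟩ := hdvd'
      have hu2 : u ≤ 2 := by
        by_contra hcon
        have h3 : 3 ≤ u := by omega
        have : d * 3 ≤ d * u := Nat.mul_le_mul_left _ h3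
        omega
      interval_cases u
      · left
        have : t = 0 := by omega
        rw [hpt, this]; simp
      · exfalso
        have hdt : d = 2 * t := by omega
        have hdt' : (d : ℤ) = 2 * t := by exact_mod_cast hdt
        have ht0 : (t : ℤ) ≠ 0 := by
          have : 0 < t := by omega
          exact_mod_cast this.ne'
        have hN3 : N = t * (h' + k' + 1) - 1 := by
          rw [hdt'] at hN2
          have : (2 * (t : ℤ)) * N = (2 * t) * (t * (h' + k' + 1) - 1) := by
            rw [hN2]; ring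
          exact mul_left_cancel₀ (mul_ne_zero two_ne_zero ht0) this
        have e1' : ∑ e ∈ s, n e * n e = (k' * t : ℤ) * (h' * t) := by rw [e1, hpt, hqt]
        have par : (2 : ℤ) ∣ ∑ e ∈ s, n e * n e - N := by
          rw [hNdef, ← Finset.sum_sub_distrib]
          refine Finset.dvd_sum fun e _ => ?_
          have := Int.even_mul_pred_self (n e)
          rw [mul_sub, mul_one] at this
          exact even_iff_two_dvd.1 this
        rw [e1', hN3] at par
        have hz : (((k' * t : ℤ) * (h' * t) - (t * (h' + k' + 1) - 1) : ℤ) : ZMod 2) = 0 := by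
          rw [ZMod.intCast_zmod_eq_zero_iff_dvd]; exact_mod_cast par
        push_cast at hz
        have hno : ¬ ((h' : ZMod 2) = 0 ∧ (k' : ZMod 2) = 0) := by
          rintro ⟨h1, h2⟩
          rw [ZMod.natCast_eq_zero_iff] at h1 h2
          have := Nat.dvd_gcd h1 h2
          rw [hcop] at this
          omega
        revert hz hno
        generalize (h' : ZMod 2) = H
        generalize (k' : ZMod 2) = K
        generalize (t : ZMod 2) = T
        revert H K T
        decide
      · right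
        have : t = d := by omega
        rw [hpt, this, hkd]; push_cast; ring
  obtain ⟨h', k', hcop, hhd, hkd⟩ := Nat.exists_coprime h k
  have hd : 0 < Nat.gcd h k := Nat.gcd_pos_of_pos_left _ hh
  have hk0 : 0 < k' := by
    rcases Nat.eq_zero_or_pos k' with h0 | h0
    · rw [h0, zero_mul] at hkd; omega
    · exact h0
  have hpqn : p.toNat * h = q.toNat * k := by
    have : ((p.toNat * h : ℕ) : ℤ) = ((q.toNat * k : ℕ) : ℤ) := by
      push_cast
      rw [Int.toNat_of_nonneg hp0, Int.toNat_of_nonneg hq0, hpq]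
    exact_mod_cast this
  have h1 : p.toNat * h' = q.toNat * k' := by
    have h2 : (p.toNat * h') * Nat.gcd h k = (q.toNat * k') * Nat.gcd h k := by
      calc (p.toNat * h') * Nat.gcd h k = p.toNat * (h' * Nat.gcd h k) := by ring
        _ = p.toNat * h := by rw [← hhd]
        _ = q.toNat * k := hpqn
        _ = q.toNat * (k' * Nat.gcd h k) := by rw [← hkd]
        _ = (q.toNat * k') * Nat.gcd h k := by ring
    exact Nat.eq_of_mul_eq_mul_right hd h2
  have h3 : k' ∣ p.toNat := by
    have : k' ∣ p.toNat * h' := ⟨q.toNat, by rw [h1]; ring⟩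
    exact (Nat.Coprime.symm hcop).dvd_of_dvd_mul_right this
  obtain ⟨t, ht⟩ := h3
  have h4 : q.toNat = h' * t := by
    rw [ht] at h1
    have : k' * q.toNat = k' * (h' * t) := by
      calc k' * q.toNat = q.toNat * k' := by ring
        _ = k' * t * h' := h1.symm
        _ = k' * (h' * t) := by ring
    exact Nat.eq_of_mul_eq_mul_left hk0 this
  have hpt : p = k' * t := by
    rw [← Int.toNat_of_nonneg hp0, ht]; push_cast; ring
  have hqt : q = h' * t := by
    rw [← Int.toNat_of_nonneg hq0, h4]; push_cast; ring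
  rcases key t _ h' k' hcop hhd hkd rfl hpt hqt with h0 | h0
  · exact fin0 h0
  · exact fin1 h0

/-- telescoping over the interval `[x, x + a)` inside `[0, k)` -/
lemma tele (φ : ℕ → ℤ) (x a k : ℕ) (hxk : x + a ≤ k) :
    φ (x + a) - φ x = ∑ i ∈ range k, if x ≤ i ∧ i < x + a then φ (i + 1) - φ i else 0 := by
  rw [← Finset.sum_filter]
  have h1 : (range k).filter (fun i => x ≤ i ∧ i < x + a) = Finset.Ico x (x + a) := by
    ext i
    simp only [mem_filter, mem_range, mem_Ico]
    omega
  rw [h1, Finset.sum_Ico_eq_sum_range]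
  have h2 := Finset.sum_range_sub (fun i => φ (x + i)) a
  simp only [add_zero] at h2
  rw [← h2]
  have : x + a - x = a := by omega
  rw [this]
  refine Finset.sum_congr rfl fun i _ => ?_
  rw [add_assoc]

/-- The partition (every unit cell is in exactly one tile) gives the Stokes form. -/
theorem stokes_of_part (s : Finset E) (x y a : E → ℕ) (h k : ℕ)
    (hx : ∀ e ∈ s, x e + a e ≤ k) (hy : ∀ e ∈ s, y e + a e ≤ h)
    (part : ∀ i < k, ∀ j < h,
      (∑ e ∈ s, if (x e ≤ i ∧ i < x e + a e) ∧ (y e ≤ j ∧ j < y e + a e) then (1 : ℤ) else 0) = 1)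
    (φ ψ : ℕ → ℤ) :
    ∑ e ∈ s, (φ (x e + a e) - φ (x e)) * (ψ (y e + a e) - ψ (y e))
      = (φ k - φ 0) * (ψ h - ψ 0) := by
  have h1 : ∀ e ∈ s, (φ (x e + a e) - φ (x e)) * (ψ (y e + a e) - ψ (y e))
      = ∑ i ∈ range k, ∑ j ∈ range h, ((φ (i + 1) - φ i) * (ψ (j + 1) - ψ j)) *
          (if (x e ≤ i ∧ i < x e + a e) ∧ (y e ≤ j ∧ j < y e + a e) then (1 : ℤ) else 0) := by
    intro e he
    rw [tele φ _ _ k (hx e he), tele ψ _ _ h (hy e he), Finset.sum_mul_sum]
    refine Finset.sum_congr rfl fun i _ => Finset.sum_congr rfl fun j _ => ?_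
    by_cases hi : x e ≤ i ∧ i < x e + a e
    · by_cases hj : y e ≤ j ∧ j < y e + a e
      · simp [hi, hj]
      · simp [hj]
    · simp [hi]
  rw [Finset.sum_congr rfl h1, Finset.sum_comm]
  have h2 : ∀ i ∈ range k, (∑ e ∈ s, ∑ j ∈ range h, ((φ (i + 1) - φ i) * (ψ (j + 1) - ψ j)) *
          (if (x e ≤ i ∧ i < x e + a e) ∧ (y e ≤ j ∧ j < y e + a e) then (1 : ℤ) else 0))
      = ∑ j ∈ range h, (φ (i + 1) - φ i) * (ψ (j + 1) - ψ j) := by
    intro i hi
    rw [Finset.sum_comm]
    refine Finset.sum_congr rfl fun j hj => ?_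
    rw [← Finset.mul_sum, part i (mem_range.1 hi) j (mem_range.1 hj), mul_one]
  rw [Finset.sum_congr rfl h2, ← Finset.sum_mul_sum, Finset.sum_range_sub φ, Finset.sum_range_sub ψ]

/-- Connectivity, from the partition. -/
theorem conn_of_part (s : Finset E) (x y a : E → ℕ) (h k : ℕ) (hh : 0 < h) (hk : 0 < k)
    (hx : ∀ e ∈ s, x e + a e ≤ k) (hy : ∀ e ∈ s, y e + a e ≤ h)
    (part : ∀ i < k, ∀ j < h,
      (∑ e ∈ s, if (x e ≤ i ∧ i < x e + a e) ∧ (y e ≤ j ∧ j < y e + a e) then (1 : ℤ) else 0) = 1)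
    (hsum : Nat.gcd h k = 1 ∨ ∑ e ∈ s, a e + 2 = h + k + Nat.gcd h k)
    (cx cy : ℕ → Prop) (hc : ∀ e ∈ s, ∀ c < a e, (cx (x e + c) ↔ cy (y e + c))) :
    ((∀ i < k, cx i) ∧ ∀ j < h, cy j) ∨ ((∀ i < k, ¬ cx i) ∧ ∀ j < h, ¬ cy j) :=
  conn_of_stokes s x y a h k hh hk (stokes_of_part s x y a h k hx hy part) hsum cx cy hc

end Pool.Agent.Helper32.TI
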