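import Mathlib

/-!
# The outer potential (helper32)

`A`, `M` commuting automorphisms of a linear order with `A ^ k' ≤ M ^ h'`, `gcd h' k' = 1`,
`h = h' d`, `k = k' d`.  There are automorphisms `f s` (`s : ℕ`) with
`A (f s) ≤ f (s + h)` and `M⁻¹ (f (s + k)) = f s`.
-/

set_option autoImplicit false

namespace Pool.Agent.Helper32.TI

theorem exists_inv {h' k' : ℕ} (hk : 0 < k') (hc : Nat.Coprime h' k') :
    ∃ w : ℕ, (k' : ℤ) ∣ (h' : ℤ) * w - 1 := by
  rcases Nat.lt_or_ge 1 k' with h1 | h1
  · obtain ⟨m, -, hm⟩ := Nat.exists_mul_mod_eq_one_of_coprime hc h1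
    refine ⟨m, ?_⟩
    have h2 : (h' * m) % k' = 1 % k' := by rw [hm, Nat.mod_eq_of_lt h1]
    have h3 : h' * m ≡ 1 [MOD k'] := h2
    have h4 := (Nat.modEq_iff_dvd.1 h3)
    push_cast at h4
    have h5 : (h' : ℤ) * m - 1 = -(1 - (h' : ℤ) * m) := by ring
    rw [h5]
    exact (dvd_neg.2 h4)
  · have : k' = 1 := by omega
    subst this
    exact ⟨0, by simp⟩

/-- the outer potential -/
theorem exists_pot {X : Type*} [LinearOrder X] (A M : X ≃o X) (hcomm : ∀ z, A (M z) = M (A z))
    {d h' k' : ℕ} (hd : 0 < d) (hk : 0 < k') (hc : Nat.Coprime h' k')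
    (hAM : ∀ z, (A ^ k') z ≤ (M ^ h') z) :
    ∃ f : ℕ → X ≃o X, (∀ s z, A (f s z) ≤ f (s + h' * d) z) ∧
      (∀ s z, M.symm (f (s + k' * d) z) = f s z) ∧
      ∀ c < d, ∃ s < k' * d, s % d = c ∧
        ((∀ z, A (f s z) = f (s + h' * d) z) → ∀ z, (A ^ k') z = (M ^ h') z) := by
  have hAM' : A * M = M * A := by
    ext z
    exact hcomm z
  have hC : Commute A M := hAM'
  obtain ⟨w, hw⟩ := exists_inv hk hc
  set al : ℕ → ℕ := fun s => ((s / d) * w) % k' with hal
  have halk : ∀ s, al s < k' := fun s => Nat.mod_lt _ hk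
  have hk0 : (k' : ℤ) ≠ 0 := by exact_mod_cast hk.ne'
  have hdiv : ∀ s, (k' : ℤ) ∣ (al s : ℤ) * h' - (s / d : ℕ) := by
    intro s
    have h1 : (k' : ℤ) ∣ ((s / d : ℕ) : ℤ) * w - al s := by
      have h2 : al s ≡ (s / d) * w [MOD k'] := Nat.mod_modEq _ _
      have := Nat.modEq_iff_dvd.1 h2
      push_cast at this ⊢
      exact this
    have h3 : (al s : ℤ) * h' - (s / d : ℕ)
        = ((s / d : ℕ) : ℤ) * ((h' : ℤ) * w - 1) - h' * (((s / d : ℕ) : ℤ) * w - al s) := by ring
    rw [h3]
    exact dvd_sub (Dvd.dvd.mul_left hw _) (Dvd.dvd.mul_left h1 _)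
  set be : ℕ → ℤ := fun s => ((al s : ℤ) * h' - (s / d : ℕ)) / k' with hbe
  have hbe' : ∀ s, (k' : ℤ) * be s = (al s : ℤ) * h' - (s / d : ℕ) := fun s =>
    Int.mul_ediv_cancel' (hdiv s)
  have sh : ∀ s, (s + h' * d) / d = s / d + h' := fun s => Nat.add_mul_div_right _ _ hd
  have sk : ∀ s, (s + k' * d) / d = s / d + k' := fun s => Nat.add_mul_div_right _ _ hd
  have alh : ∀ s, al (s + h' * d) = (al s + 1) % k' := by
    intro s
    have h1 : (s / d + h') * w ≡ al s + 1 [MOD k'] := by
      rw [Nat.modEq_iff_dvd]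
      have h2 : (k' : ℤ) ∣ ((s / d : ℕ) : ℤ) * w - al s := by
        have h2 : al s ≡ (s / d) * w [MOD k'] := Nat.mod_modEq _ _
        have := Nat.modEq_iff_dvd.1 h2
        push_cast at this ⊢
        exact this
      have h3 : (((al s + 1 : ℕ) : ℤ) - (((s / d + h') * w : ℕ) : ℤ))
          = -((((s / d : ℕ) : ℤ) * w - al s) + ((h' : ℤ) * w - 1)) := by
        push_cast; ring
      rw [h3]
      exact dvd_neg.2 (dvd_add h2 hw)
    have h4 : al (s + h' * d) = ((s / d + h') * w) % k' := by simp only [hal, sh]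
    rw [h4]
    exact h1
  have alk : ∀ s, al (s + k' * d) = al s := by
    intro s
    have h4 : al (s + k' * d) = ((s / d + k') * w) % k' := by simp only [hal, sk]
    rw [h4, Nat.add_mul, Nat.add_mul_mod_self_left]
  have bek : ∀ s, be (s + k' * d) = be s - 1 := by
    intro s
    have h1 := hbe' s
    have h2 := hbe' (s + k' * d)
    rw [alk, sk] at h2
    simp only [Nat.cast_add] at h2
    apply mul_left_cancel₀ hk0
    rw [h2]
    linarith
  set f : ℕ → X ≃o X := fun s => A ^ (al s) * M ^ (-(be s)) with hf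
  have step : ∀ s, (al s + 1 < k' ∧ f (s + h' * d) = A * f s) ∨
      (al s + 1 = k' ∧ f (s + h' * d) = M ^ h' * M ^ (-(be s)) ∧
        A * f s = A ^ k' * M ^ (-(be s))) := by
    intro s
    have h1 := hbe' s
    have h2 := hbe' (s + h' * d)
    rw [alh, sh] at h2
    rcases Nat.lt_or_ge (al s + 1) k' with h3 | h3
    · left
      refine ⟨h3, ?_⟩
      rw [Nat.mod_eq_of_lt h3] at h2
      simp only [Nat.cast_add, Nat.cast_one] at h2
      have h4 : be (s + h' * d) = be s := by
        apply mul_left_cancel₀ hk0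
        rw [h2, h1]; ring
      simp only [hf]
      rw [alh, Nat.mod_eq_of_lt h3, h4, pow_succ', mul_assoc]
    · right
      have h5 : al s + 1 = k' := le_antisymm (halk s) h3
      refine ⟨h5, ?_, ?_⟩
      · rw [h5, Nat.mod_self] at h2
        simp only [Nat.cast_add, Nat.cast_zero] at h2
        have h4 : be (s + h' * d) = be s - h' := by
          apply mul_left_cancel₀ hk0
          rw [h2]
          have h6 : (al s : ℤ) = k' - 1 := by
            have : ((al s + 1 : ℕ) : ℤ) = k' := by exact_mod_cast h5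
            push_cast at this
            linarith
          rw [h6] at h1
          linarith
        simp only [hf]
        rw [alh, h5, Nat.mod_self, h4, pow_zero, one_mul, ← zpow_natCast, ← zpow_add]
        congr 1
        ring
      · simp only [hf]
        rw [← mul_assoc, ← pow_succ', h5]
  refine ⟨f, ?_, ?_, ?_⟩
  · intro s z
    rcases step s with ⟨-, h1⟩ | ⟨-, h1, h2⟩
    · rw [h1]; exact le_rfl
    · have h3 : A (f s z) = (A * f s) z := rfl
      rw [h3, h1, h2, RelIso.mul_apply, RelIso.mul_apply]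
      exact hAM _
  · intro s z
    have h1 : f (s + k' * d) = M * f s := by
      simp only [hf]
      rw [alk, bek]
      have h2 : M * (A ^ al s * M ^ (-be s)) = A ^ al s * (M * M ^ (-be s)) := by
        rw [← mul_assoc, ← mul_assoc, (hC.pow_left (al s)).eq]
      rw [h2]
      congr 1
      rw [← zpow_one_add]
      congr 1
      ring
    rw [h1, RelIso.mul_apply]
    exact M.symm_apply_apply _
  · -- the step at which the potential jumps
    intro c hcd
    refine ⟨c + ((k' - h' % k') % k') * d, ?_, ?_, ?_⟩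
    · have h1 : (k' - h' % k') % k' + 1 ≤ k' := Nat.mod_lt _ hk
      have h2 := Nat.mul_le_mul_right d h1
      rw [Nat.add_mul, Nat.one_mul] at h2
      omega
    · rw [Nat.add_mul_mod_self_right, Nat.mod_eq_of_lt hcd]
    intro heq
    set s := c + ((k' - h' % k') % k') * d with hs
    have hsd : s / d = (k' - h' % k') % k' := by
      rw [hs, Nat.add_mul_div_right _ _ hd, Nat.div_eq_of_lt hcd, Nat.zero_add]
    have hal' : al s + 1 = k' := by
      have h1 : (k' : ℤ) ∣ ((s / d : ℕ) : ℤ) + h' := by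
        rw [hsd]
        have h2 : ((k' - h' % k') % k' + h') % k' = 0 := by
          have h3 : h' % k' < k' := Nat.mod_lt _ hk
          rw [Nat.mod_add_mod]
          have h4 : k' - h' % k' + h' = k' * (1 + h' / k') := by
            have := Nat.div_add_mod h' k'
            rw [Nat.mul_add, Nat.mul_one]
            omega
          rw [h4, Nat.mul_mod_right]
        exact_mod_cast Nat.dvd_of_mod_eq_zero h2
      have h2 : (k' : ℤ) ∣ ((s / d : ℕ) : ℤ) * w - al s := by
        have h2 : al s ≡ (s / d) * w [MOD k'] := Nat.mod_modEq _ _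
        have := Nat.modEq_iff_dvd.1 h2
        push_cast at this ⊢
        exact this
      have h3 : (k' : ℤ) ∣ ((al s + 1 : ℕ) : ℤ) := by
        have h4 : (((al s + 1 : ℕ)) : ℤ) = (((s / d : ℕ) : ℤ) + h') * w
            - ((((s / d : ℕ) : ℤ) * w - al s) + ((h' : ℤ) * w - 1)) := by
          push_cast; ring
        rw [h4]
        exact dvd_sub (Dvd.dvd.mul_right h1 _) (dvd_add h2 hw)
      have h4 : k' ∣ al s + 1 := by exact_mod_cast h3
      have h5 := halk s
      exact Nat.le_antisymm h5 (Nat.le_of_dvd (Nat.succ_pos _) h4)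
    rcases step s with ⟨h1, -⟩ | ⟨-, h1, h2⟩
    · omega
    · intro z
      have h3 := heq ((M ^ (-(be s))).symm z)
      have h4 : A (f s ((M ^ (-(be s))).symm z)) = (A * f s) ((M ^ (-(be s))).symm z) := rfl
      rw [h4, h1, h2, RelIso.mul_apply, RelIso.mul_apply] at h3
      rw [OrderIso.apply_symm_apply] at h3
      exact h3

end Pool.Agent.Helper32.TI
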