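import Mathlib
import Pool.Agent.Helper61.TL.Tile
import Pool.Agent.Helper72.T1.Comp
import Pool.Agent.Helper32.TI.Pot
import Pool.Agent.Helper32.TI.Conn

/-!
# Squared rectangles, the general case (helper32)

`T : Tiling X h k A M ι`, `d = gcd h k`.  The cells of the tiles and one cell for every row form
a hypermap: `a` = next cell in the row, `b` = next cell in the column, where the columns of a
residue class modulo `d` are joined to one cycle through the cells of the rows.
-/

set_option autoImplicit false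

open Finset

namespace Pool.Agent.Helper61.TL.Tiling

open Pool.Agent.Helper61.TL

variable {X : Type*} [LinearOrder X] {h k : ℕ} {A M : X ≃o X} {ι : Type*}
  (T : Tiling X h k A M ι)

/-- the cells -/
abbrev Cell (_T : Tiling X h k A M ι) : Type _ := (Σ e, Fin (_T.sz e)) ⊕ Fin h

/-- start in the row -/
def kA : T.Cell → ℕ × ℕ
  | Sum.inl w => (T.yt w.1 + w.2, T.al w.1)
  | Sum.inr j => (j, k)

/-- end in the row -/
def kA' : T.Cell → ℕ × ℕ
  | Sum.inl w => (T.yt w.1 + w.2, T.al w.1 + T.sz w.1)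
  | Sum.inr j => (j, 0)

/-- start in the column -/
def kB : T.Cell → ℕ × ℕ
  | Sum.inl w => (T.al w.1 + w.2, T.yt w.1)
  | Sum.inr j => (j + k, 0)

/-- end in the column -/
def kB' : T.Cell → ℕ × ℕ
  | Sum.inl w => if T.yt w.1 + T.sz w.1 < h then (T.al w.1 + w.2, T.yt w.1 + T.sz w.1)
      else (T.al w.1 + w.2 + h, 0)
  | Sum.inr j => (j, 0)

/-- a permutation from two keys -/
theorem perm_of_keys {Ω K : Type*} [Finite Ω] (u v : Ω → K) (hv : Function.Injective v)
    (hex : ∀ w, ∃ w', u w' = v w) : ∃ a : Equiv.Perm Ω, ∀ w, u (a w) = v w := by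
  choose f hf using hex
  have hfi : Function.Injective f := by
    intro w w' h
    apply hv
    rw [← hf w, ← hf w', h]
  exact ⟨Equiv.ofBijective f (Finite.injective_iff_bijective.1 hfi), fun w => hf w⟩

/-- The square above. -/
lemma above {e : ι} {i : ℕ} (h1 : T.al e ≤ i) (h2 : i < T.al e + T.sz e)
    (h3 : T.yt e + T.sz e < h) :
    ∃ e', T.al e' ≤ i ∧ i < T.al e' + T.sz e' ∧ T.yt e' = T.yt e + T.sz e := by
  have hc := T.colb e
  have hp := T.pos e
  obtain ⟨e', h4, h5, h6, h7⟩ := T.cover i (by omega) (T.yt e + T.sz e) h3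
  refine ⟨e', h4, h5, ?_⟩
  by_contra hne
  have h8 : T.yt e' < T.yt e + T.sz e := by omega
  have h9 : e = e' := T.disj e e' i (T.yt e + T.sz e - 1) ⟨h1, h2, by omega, by omega⟩
    ⟨h4, h5, by omega, by omega⟩
  subst h9
  omega

/-- the node at time `s` -/
lemma exists_node (hh : 0 < h) {s : ℕ} (hs : s < h + k) : ∃ w : T.Cell, T.kB w = (s, 0) := by
  rcases Nat.lt_or_ge s k with h1 | h1
  · obtain ⟨e, h4, h5, h6, h7⟩ := T.cover s h1 0 hh
    refine ⟨Sum.inl ⟨e, ⟨s - T.al e, by omega⟩⟩, ?_⟩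
    simp only [kB, Prod.mk.injEq]
    omega
  · refine ⟨Sum.inr ⟨s - k, by omega⟩, ?_⟩
    simp only [kB, Prod.mk.injEq, and_true]
    omega

/-- next in the row -/
theorem exists_a [Finite ι] (hk : 0 < k) :
    ∃ a : Equiv.Perm T.Cell, ∀ w, T.kA (a w) = T.kA' w := by
  apply perm_of_keys
  · rintro (⟨e, c⟩ | j) (⟨e', c'⟩ | j') heq
    · simp only [kA', Prod.mk.injEq] at heq
      obtain ⟨h1, h2⟩ := heq
      have c1 := c.2
      have c2 := c'.2
      have p1 := T.pos e
      have p2 := T.pos e'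
      have hee : e = e' := T.disj e e' (T.al e + T.sz e - 1) (T.yt e + c)
        ⟨by omega, by omega, by omega, by omega⟩ ⟨by omega, by omega, by omega, by omega⟩
      subst hee
      have : c = c' := Fin.ext (by omega)
      rw [this]
    · simp only [kA', Prod.mk.injEq] at heq
      have := T.pos e
      omega
    · simp only [kA', Prod.mk.injEq] at heq
      have := T.pos e'
      omega
    · simp only [kA', Prod.mk.injEq] at heq
      rw [Fin.ext heq.1]
  · rintro (⟨e, c⟩ | j)
    · have c1 := c.2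
      have r1 := T.rowb e
      have r2 := T.colb e
      rcases Nat.lt_or_ge (T.al e + T.sz e) k with h1 | h1
      · obtain ⟨e', h2, h3, h4⟩ := T.next (e := e) (j := T.yt e + c) (by omega) (by omega) h1
        refine ⟨Sum.inl ⟨e', ⟨T.yt e + c - T.yt e', by omega⟩⟩, ?_⟩
        simp only [kA, kA', Prod.mk.injEq]
        omega
      · refine ⟨Sum.inr ⟨T.yt e + c, by omega⟩, ?_⟩
        simp only [kA, kA', Prod.mk.injEq, true_and]
        omega
    · obtain ⟨e, h4, h5, h6, h7⟩ := T.cover 0 hk j j.2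
      refine ⟨Sum.inl ⟨e, ⟨j - T.yt e, by omega⟩⟩, ?_⟩
      simp only [kA, kA', Prod.mk.injEq]
      omega

lemma kB'_inj : Function.Injective T.kB' := by
    rintro (⟨e, c⟩ | j) (⟨e', c'⟩ | j') heq
    · have c1 := c.2
      have c2 := c'.2
      have p1 := T.pos e
      have p2 := T.pos e'
      have r1 := T.rowb e
      have r1' := T.rowb e'
      have hee : e = e' ∧ (c : ℕ) = c' := by
        simp only [kB'] at heq
        split_ifs at heq with h1 h2 h2
        · simp only [Prod.mk.injEq] at heq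
          obtain ⟨h3, h4⟩ := heq
          have hee : e = e' := T.disj e e' (T.al e + c) (T.yt e + T.sz e - 1)
            ⟨by omega, by omega, by omega, by omega⟩ ⟨by omega, by omega, by omega, by omega⟩
          subst hee
          exact ⟨rfl, by omega⟩
        · simp only [Prod.mk.injEq] at heq
          omega
        · simp only [Prod.mk.injEq] at heq
          omega
        · simp only [Prod.mk.injEq] at heq
          obtain ⟨h3, h4⟩ := heq
          have hee : e = e' := T.disj e e' (T.al e + c) (h - 1)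
            ⟨by omega, by omega, by omega, by omega⟩ ⟨by omega, by omega, by omega, by omega⟩
          subst hee
          exact ⟨rfl, by omega⟩
      obtain ⟨h1, h2⟩ := hee
      subst h1
      rw [Fin.ext h2]
    · have p1 := T.pos e
      have j1 := j'.2
      simp only [kB'] at heq
      split_ifs at heq with h1
      · simp only [Prod.mk.injEq] at heq; omega
      · simp only [Prod.mk.injEq] at heq; omega
    · have p1 := T.pos e'
      have j1 := j.2
      simp only [kB'] at heq
      split_ifs at heq with h1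
      · simp only [Prod.mk.injEq] at heq; omega
      · simp only [Prod.mk.injEq] at heq; omega
    · simp only [kB', Prod.mk.injEq] at heq
      rw [Fin.ext heq.1]

/-- next in the column -/
theorem exists_b [Finite ι] (hh : 0 < h) :
    ∃ b : Equiv.Perm T.Cell, ∀ w, T.kB (b w) = T.kB' w := by
  apply perm_of_keys _ _ T.kB'_inj
  · rintro (⟨e, c⟩ | j)
    · have c1 := c.2
      have r1 := T.rowb e
      have r2 := T.colb e
      rcases Nat.lt_or_ge (T.yt e + T.sz e) h with h1 | h1
      · obtain ⟨e', h2, h3, h4⟩ := T.above (e := e) (i := T.al e + c) (by omega) (by omega) h1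
        refine ⟨Sum.inl ⟨e', ⟨T.al e + c - T.al e', by omega⟩⟩, ?_⟩
        simp only [kB, kB', if_pos h1, Prod.mk.injEq]
        omega
      · obtain ⟨w, hw⟩ := T.exists_node hh (s := T.al e + c + h) (by omega)
        refine ⟨w, ?_⟩
        rw [hw]
        simp only [kB', if_neg (not_lt.2 h1)]
    · obtain ⟨w, hw⟩ := T.exists_node hh (s := j) (by omega)
      exact ⟨w, hw⟩

lemma time_lt (w : T.Cell) : (T.kB w).1 + (T.kB w).2 < h + k := by
  rcases w with ⟨e, c⟩ | j
  · have := T.rowb e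
    have := T.colb e
    have := c.2
    simp only [kB]
    omega
  · have := j.2
    simp only [kB]
    omega

lemma time_eq (w : T.Cell) : (T.kA w).1 + (T.kA w).2 = (T.kB w).1 + (T.kB w).2 := by
  rcases w with ⟨e, c⟩ | j
  · simp only [kA, kB]; omega
  · simp only [kA, kB]; omega

lemma time_eq' (w : T.Cell) : (T.kA' w).1 + (T.kA' w).2 = (T.kB' w).1 + (T.kB' w).2 := by
  rcases w with ⟨e, c⟩ | j
  · have := T.rowb e
    simp only [kA', kB']
    split_ifs with h1
    · simp only; omega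
    · simp only; omega
  · simp only [kA', kB']

lemma row_lt (w : T.Cell) : (T.kA w).1 < h := by
  rcases w with ⟨e, c⟩ | j
  · have := T.rowb e
    have := c.2
    simp only [kA]
    omega
  · exact j.2

/-- an `a`-invariant set -/
lemma inv_a {a : Equiv.Perm T.Cell} (ha : ∀ w, T.kA (a w) = T.kA' w) {W : T.Cell → Prop}
    (hW : ∀ w, W (a w) ↔ W w) (w : T.Cell) : W w ↔ W (Sum.inr ⟨(T.kA w).1, T.row_lt w⟩) := by
  have key : ∀ n : ℕ, ∀ (w : Σ e, Fin (T.sz e)), T.al w.1 = n →
      (W (Sum.inl w) ↔ W (Sum.inr ⟨(T.kA (Sum.inl w)).1, T.row_lt (Sum.inl w)⟩)) := by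
    intro n
    induction n using Nat.strong_induction_on with
    | _ n ih =>
      intro w hn
      obtain ⟨w', hw'⟩ := a.surjective (Sum.inl w)
      have h1 := ha w'
      rw [hw'] at h1
      rcases w' with w' | i
      · simp only [kA, kA', Prod.mk.injEq] at h1
        obtain ⟨h2, h3⟩ := h1
        have hs := T.pos w'.1
        have h4 := ih (T.al w'.1) (by omega) w' rfl
        have h5 : (⟨(T.kA (Sum.inl w)).1, T.row_lt (Sum.inl w)⟩ : Fin h)
            = ⟨(T.kA (Sum.inl w')).1, T.row_lt (Sum.inl w')⟩ := Fin.ext h2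
        rw [h5, ← h4, ← hw', hW]
      · simp only [kA, kA', Prod.mk.injEq] at h1
        have h5 : (⟨(T.kA (Sum.inl w)).1, T.row_lt (Sum.inl w)⟩ : Fin h) = i := Fin.ext h1.1
        rw [h5, ← hw', hW]
  rcases w with w | j
  · exact key _ w rfl
  · exact Iff.rfl

lemma kB_inj {b : Equiv.Perm T.Cell} (hb : ∀ w, T.kB (b w) = T.kB' w)
    (hinj : Function.Injective T.kB') : Function.Injective T.kB := by
  intro w w' hw
  obtain ⟨v, rfl⟩ := b.surjective w
  obtain ⟨v', rfl⟩ := b.surjective w'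
  rw [hb, hb] at hw
  rw [hinj hw]

/-- a `b`-invariant set: the columns -/
lemma inv_col {b : Equiv.Perm T.Cell} (hb : ∀ w, T.kB (b w) = T.kB' w) {W : T.Cell → Prop}
    (hW : ∀ w, W (b w) ↔ W w) {s : ℕ} :
    ∀ (n : ℕ) (w : Σ e, Fin (T.sz e)), T.al w.1 + w.2 = s → T.yt w.1 = n →
      ∃ w₀ : T.Cell, T.kB w₀ = (s, 0) ∧ (W (Sum.inl w) ↔ W w₀) := by
  intro n
  induction n using Nat.strong_induction_on with
  | _ n ih =>
    intro w h1 hn
    rcases Nat.eq_zero_or_pos n with h0 | h0
    · refine ⟨Sum.inl w, ?_, Iff.rfl⟩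
      simp only [kB, h1, hn, h0]
    · obtain ⟨w', hw'⟩ := b.surjective (Sum.inl w)
      have h2 := hb w'
      rw [hw'] at h2
      rcases w' with w' | i
      · simp only [kB, kB'] at h2
        split_ifs at h2 with h3
        · simp only [Prod.mk.injEq] at h2
          have hp := T.pos w'.1
          obtain ⟨w₀, h4, h5⟩ := ih (T.yt w'.1) (by omega) w' (by omega) rfl
          refine ⟨w₀, h4, ?_⟩
          rw [← h5, ← hw', hW]
        · simp only [Prod.mk.injEq] at h2
          omega
      · simp only [kB, kB', Prod.mk.injEq] at h2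
        omega

/-- the top cell of a column -/
lemma exists_top (hh : 0 < h) {s : ℕ} (hs : s < k) :
    ∃ w : Σ e, Fin (T.sz e), T.al w.1 + w.2 = s ∧ T.yt w.1 + T.sz w.1 = h := by
  obtain ⟨e, h2, h3, h4, h5⟩ := T.cover s hs (h - 1) (by omega)
  have h6 := T.rowb e
  refine ⟨⟨e, ⟨s - T.al e, by omega⟩⟩, ?_, ?_⟩
  · simp only; omega
  · simp only; omega

end Pool.Agent.Helper61.TL.Tiling

namespace Pool.Agent.Helper32.TI

/-- a finite closed set is invariant -/
theorem closed_iff {Ω : Type*} [Finite Ω] (a : Equiv.Perm Ω) {C : Set Ω} (h : ∀ w ∈ C, a w ∈ C)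
    (w : Ω) : a w ∈ C ↔ w ∈ C := by
  refine ⟨fun hw => ?_, fun hw => h w hw⟩
  set g : C → C := fun w => ⟨a w.1, h w.1 w.2⟩ with hg
  have hi : Function.Injective g := by
    intro u v huv
    exact Subtype.ext (a.injective (congrArg Subtype.val huv))
  obtain ⟨v, hv⟩ := (Finite.injective_iff_surjective.1 hi) ⟨a w, hw⟩
  have h1 : a v.1 = a w := congrArg Subtype.val hv
  rw [← a.injective h1]
  exact v.2

/-- residue classes -/
theorem res_conn {h k : ℕ} (V : ℕ → Prop) (h1 : ∀ s < k, (V s ↔ V (s + h)))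
    (h2 : ∀ j < h, (V (j + k) ↔ V j)) {s s' : ℕ} (hs : s < h + k) (hs' : s' < h + k)
    (hss : s % Nat.gcd h k = s' % Nat.gcd h k) : V s ↔ V s' := by
  have hT : 0 < h + k := by omega
  set U : ℕ → Prop := fun n => V (n % (h + k)) with hU
  have hstep : ∀ n, U n ↔ U (n + h) := by
    intro n
    have hr : n % (h + k) < h + k := Nat.mod_lt _ hT
    simp only [hU]
    rw [← Nat.mod_add_mod]
    rcases Nat.lt_or_ge (n % (h + k)) k with h3 | h3
    · rw [Nat.mod_eq_of_lt (by omega : n % (h + k) + h < h + k)]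
      exact h1 _ h3
    · have h4 : n % (h + k) + h = (n % (h + k) - k) + (h + k) := by omega
      rw [h4, Nat.add_mod_right, Nat.mod_eq_of_lt (by omega : n % (h + k) - k < h + k)]
      have h5 := h2 (n % (h + k) - k) (by omega)
      rw [Nat.sub_add_cancel h3] at h5
      exact h5
  have hmul : ∀ t n, U n ↔ U (n + t * h) := by
    intro t
    induction t with
    | zero => intro n; rw [Nat.zero_mul, Nat.add_zero]
    | succ t ih =>
      intro n
      rw [ih n, hstep, Nat.succ_mul, Nat.add_assoc]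
  obtain ⟨t, ht⟩ : ∃ t : ℕ, (s + t * h) % (h + k) = s' := by
    have hg : Nat.gcd h (h + k) = Nat.gcd h k := by
      rw [Nat.gcd_self_add_right]
    rw [← hg] at hss
    revert hT hs hs' hss
    clear hmul hstep hU U h1 h2 hg
    generalize h + k = N
    intro hs hs' hss hT
    have hd : ((Nat.gcd h N : ℕ) : ℤ) ∣ (s' : ℤ) - s := Nat.modEq_iff_dvd.1 hss
    obtain ⟨u, hu⟩ := hd
    rw [Nat.gcd_eq_gcd_ab] at hu
    set x := Nat.gcdA h N
    set y := Nat.gcdB h N
    have hTz : (0 : ℤ) < (N : ℤ) := by exact_mod_cast hT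
    refine ⟨(x * u % (N : ℤ)).toNat, ?_⟩
    have h3 : (((x * u % (N : ℤ)).toNat : ℕ) : ℤ) = x * u % (N : ℤ) :=
      Int.toNat_of_nonneg (Int.emod_nonneg _ hTz.ne')
    have h4 : (s + (x * u % (N : ℤ)).toNat * h) ≡ s' [MOD N] := by
      rw [Nat.modEq_iff_dvd]
      rw [Nat.cast_add, Nat.cast_mul, h3]
      have h5 := Int.emod_add_mul_ediv (x * u) (N : ℤ)
      refine ⟨y * u + (x * u / (N : ℤ)) * h, ?_⟩
      have h6 : x * u % (N : ℤ) = x * u - (N : ℤ) * (x * u / (N : ℤ)) := by
        linarith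
      rw [h6]
      have h7 : (s' : ℤ) = s + ((h : ℤ) * x + (N : ℤ) * y) * u := by linarith
      rw [h7]
      ring
    have h5 : (s + (x * u % (N : ℤ)).toNat * h) % N = s' % N := h4
    rw [h5, Nat.mod_eq_of_lt hs']
  have h3 := hmul t s
  simp only [hU, ht, Nat.mod_eq_of_lt hs] at h3
  exact h3

end Pool.Agent.Helper32.TI

namespace Pool.Agent.Helper61.TL.Tiling

open Pool.Agent.Helper61.TL

variable {X : Type*} [LinearOrder X] {h k : ℕ} {A M : X ≃o X} {ι : Type*} [Fintype ι]
  (T : Tiling X h k A M ι)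

/-- every unit cell is in exactly one tile -/
lemma part_sum {i j : ℕ} (hi : i < k) (hj : j < h) :
    (∑ e, if (T.al e ≤ i ∧ i < T.al e + T.sz e) ∧ (T.yt e ≤ j ∧ j < T.yt e + T.sz e) then (1 : ℤ)
      else 0) = 1 := by
  classical
  obtain ⟨e, h1, h2, h3, h4⟩ := T.cover i hi j hj
  rw [Finset.sum_eq_single e]
  · rw [if_pos ⟨⟨h1, h2⟩, h3, h4⟩]
  · intro e' _ hne
    rw [if_neg]
    rintro ⟨⟨h5, h6⟩, h7, h8⟩
    exact hne (T.disj e' e i j ⟨h5, h6, h7, h8⟩ ⟨h1, h2, h3, h4⟩)
  · intro h5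
    exact absurd (mem_univ e) h5

/-- **Squared rectangles.** If the sum of the sides of the squares is less than
`h + k + gcd h k`, then `A ^ (k / d) ≤ M ^ (h / d)`, `d = gcd h k`, implies equality, and
if the sum is `h + k + gcd h k - 2`, there is equality in all the inequalities. -/
theorem rect_core (hk : 0 < k) (hh : 0 < h) (hsum : ∑ e, T.sz e < h + k + Nat.gcd h k)
    (comm : ∀ z, A (M z) = M (A z))
    (hAM : ∀ z, (A ^ (k / Nat.gcd h k)) z ≤ (M ^ (h / Nat.gcd h k)) z) :
    (∀ z, (A ^ (k / Nat.gcd h k)) z = (M ^ (h / Nat.gcd h k)) z) ∧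
    (∑ e, T.sz e + 2 = h + k + Nat.gcd h k →
      (∀ e, T.al e = 0 → ∀ z, T.lt e z = z) ∧
      (∀ e, T.al e + T.sz e = k → ∀ z, M z = T.rt e z) ∧
      (∀ e e' j, T.yt e ≤ j → j < T.yt e + T.sz e → T.yt e' ≤ j → j < T.yt e' + T.sz e' →
        T.al e + T.sz e = T.al e' → ∀ z, T.lt e' z = T.rt e z) ∧
      ∀ e z, T.rt e ((T.lt e).symm z) = T.up e ((T.lo e).symm z)) := by
  classical
  set d := Nat.gcd h k with hd
  have hd0 : 0 < d := Nat.gcd_pos_of_pos_left _ hh
  have hdh : d ∣ h := Nat.gcd_dvd_left _ _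
  have hdk : d ∣ k := Nat.gcd_dvd_right _ _
  have hh' : h / d * d = h := Nat.div_mul_cancel hdh
  have hk' : k / d * d = k := Nat.div_mul_cancel hdk
  have hk0 : 0 < k / d := Nat.div_pos (Nat.le_of_dvd hk hdk) hd0
  have hcop : Nat.Coprime (h / d) (k / d) := Nat.coprime_div_gcd_div_gcd hd0
  obtain ⟨f, f1, f2, f3⟩ := Pool.Agent.Helper32.TI.exists_pot A M comm hd0 hk0 hcop hAM
  rw [hh'] at f1
  rw [hk'] at f2
  simp only [hh', hk'] at f3
  obtain ⟨a, ha⟩ := T.exists_a hk
  obtain ⟨b, hb⟩ := T.exists_b hh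
  -- labels
  set p : T.Cell → Fin h := fun w => ⟨(T.kA w).1, T.row_lt w⟩ with hp
  set q : T.Cell → Fin d := fun w => ⟨(T.kB w).1 % d, Nat.mod_lt _ hd0⟩ with hq
  set z : T.Cell → Fin (h + k) := fun w => ⟨(T.kB w).1 + (T.kB w).2, T.time_lt w⟩ with hz
  have hkA : ∀ w, (T.kA' w).1 = (T.kA w).1 := by
    rintro (w | j) <;> rfl
  have hkB : ∀ w, (T.kB' w).1 % d = (T.kB w).1 % d := by
    rintro (w | j)
    · simp only [kB, kB']
      split_ifs with h1
      · rfl
      · simp only
        rw [Nat.add_mod, Nat.mod_eq_zero_of_dvd hdh, Nat.add_zero, Nat.mod_mod]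
    · simp only [kB, kB']
      rw [Nat.add_mod, Nat.mod_eq_zero_of_dvd hdk, Nat.add_zero, Nat.mod_mod]
  have hpa : ∀ w, p (a w) = p w := fun w => Fin.ext (by
    show (T.kA (a w)).1 = (T.kA w).1
    rw [ha, hkA])
  have hqb : ∀ w, q (b w) = q w := fun w => Fin.ext (by
    show (T.kB (b w)).1 % d = (T.kB w).1 % d
    rw [hb, hkB])
  have hzab : ∀ w, z (a w) = z (b w) := fun w => Fin.ext (by
    show (T.kB (a w)).1 + (T.kB (a w)).2 = (T.kB (b w)).1 + (T.kB (b w)).2
    rw [← T.time_eq, ha, hb, T.time_eq'])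
  have hps : Function.Surjective p := fun j => ⟨Sum.inr j, Fin.ext rfl⟩
  have hqs : Function.Surjective q := by
    intro c
    obtain ⟨w, hw⟩ := T.exists_node hh (s := c) (by
      have := c.2
      have := Nat.le_of_dvd hk hdk
      omega)
    refine ⟨w, Fin.ext ?_⟩
    show (T.kB w).1 % d = c
    rw [hw]
    exact Nat.mod_eq_of_lt c.2
  have hzs : Function.Surjective z := by
    intro s
    obtain ⟨w, hw⟩ := T.exists_node hh (s := s) s.2
    refine ⟨w, Fin.ext ?_⟩
    show (T.kB w).1 + (T.kB w).2 = s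
    rw [hw]
    rfl
  have hcard : Fintype.card T.Cell < Fintype.card (Fin h) + Fintype.card (Fin d)
      + Fintype.card (Fin (h + k)) := by
    rw [Fintype.card_sum, Fintype.card_sigma]
    simp only [Fintype.card_fin]
    omega
  obtain ⟨C, ⟨w₀, hw₀⟩, hC, hE⟩ := Pool.Agent.Helper72.T1.slack_component a b p q z hpa hqb hzab
    hps hqs hzs hcard
    (fun w => match w with
      | Sum.inl w => T.lt w.1
      | Sum.inr _ => M)
    (fun w => match w with
      | Sum.inl w => T.rt w.1
      | Sum.inr _ => 1)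
    (fun w => match w with
      | Sum.inl w => T.lo w.1 * f (T.al w.1 + w.2)
      | Sum.inr j => f (j + k))
    (fun w => match w with
      | Sum.inl w => T.up w.1 * f (T.al w.1 + w.2)
      | Sum.inr j => M⁻¹ * f (j + k))
    (by
      rintro (w | j) x
      · show T.rt w.1 ((T.lt w.1).symm x)
          ≤ (T.up w.1 * f (T.al w.1 + w.2)) ((T.lo w.1 * f (T.al w.1 + w.2)).symm x)
        have h1 : (T.lo w.1 * f (T.al w.1 + w.2)).symm x
            = (f (T.al w.1 + w.2)).symm ((T.lo w.1).symm x) := rfl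
        rw [h1, RelIso.mul_apply, OrderIso.apply_symm_apply]
        apply T.cell
        rw [OrderIso.apply_symm_apply, OrderIso.apply_symm_apply]
      · show (1 : X ≃o X) (M.symm x) ≤ (M⁻¹ * f (j + k)) ((f (j + k)).symm x)
        rw [RelIso.mul_apply, OrderIso.apply_symm_apply]
        exact le_rfl)
    (by
      intro w x
      have h1 := ha w
      rcases hw' : a w with w' | i'
      · rw [hw'] at h1
        rcases w with w | i
        · simp only [kA, kA', Prod.mk.injEq] at h1
          have c1 := w.2.2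
          have c2 := w'.2.2
          exact T.horz w.1 w'.1 (T.yt w.1 + w.2) (by omega) (by omega) (by omega) (by omega)
            h1.2.symm x
        · simp only [kA, kA', Prod.mk.injEq] at h1
          exact T.left w'.1 h1.2 x
      · rw [hw'] at h1
        rcases w with w | i
        · simp only [kA, kA', Prod.mk.injEq] at h1
          exact T.right w.1 h1.2.symm x
        · simp only [kA, kA', Prod.mk.injEq] at h1
          omega)
    (by
      intro w x
      have h1 := hb w
      rcases hw' : b w with w' | i'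
      · rw [hw'] at h1
        rcases w with w | i
        · have c1 := w.2.2
          have c2 := w'.2.2
          have p1 := T.pos w.1
          have r1 := T.rowb w.1
          simp only [kB, kB'] at h1
          split_ifs at h1 with h2
          · simp only [Prod.mk.injEq] at h1
            show T.up w.1 (f (T.al w.1 + w.2) x) ≤ T.lo w'.1 (f (T.al w'.1 + w'.2) x)
            rw [h1.1]
            exact (T.vert w.1 w'.1 (T.al w.1 + w.2) (by omega) (by omega) (by omega) (by omega)
              h1.2.symm _).le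
          · simp only [Prod.mk.injEq] at h1
            show T.up w.1 (f (T.al w.1 + w.2) x) ≤ T.lo w'.1 (f (T.al w'.1 + w'.2) x)
            rw [h1.1, T.bot w'.1 h1.2, T.top w.1 (by omega)]
            exact f1 _ _
        · simp only [kB, kB', Prod.mk.injEq] at h1
          show M.symm (f (i + k) x) ≤ T.lo w'.1 (f (T.al w'.1 + w'.2) x)
          rw [h1.1, T.bot w'.1 h1.2]
          exact (f2 _ _).le
      · rw [hw'] at h1
        rcases w with w | i
        · have p1 := T.pos w.1
          have r1 := T.rowb w.1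
          simp only [kB, kB'] at h1
          split_ifs at h1 with h2
          · simp only [Prod.mk.injEq] at h1
            omega
          · simp only [Prod.mk.injEq] at h1
            show T.up w.1 (f (T.al w.1 + w.2) x) ≤ f (i' + k) x
            rw [h1.1, T.top w.1 (by omega)]
            exact f1 _ _
        · simp only [kB, kB', Prod.mk.injEq, and_true] at h1
          show M.symm (f (i + k) x) ≤ f (i' + k) x
          rw [h1]
          exact (f2 _ _).le)
  -- the invariant set
  have hCa : ∀ w, a w ∈ C ↔ w ∈ C :=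
    Pool.Agent.Helper32.TI.closed_iff a fun w hw => (hC w hw).1
  have hCb : ∀ w, b w ∈ C ↔ w ∈ C :=
    Pool.Agent.Helper32.TI.closed_iff b fun w hw => (hC w hw).2
  have hinj : Function.Injective T.kB := by
    obtain ⟨b', hb', hinj⟩ : ∃ b' : Equiv.Perm T.Cell, (∀ w, T.kB (b' w) = T.kB' w) ∧
        Function.Injective T.kB' := ⟨b, hb, T.kB'_inj⟩
    exact T.kB_inj hb' hinj
  set V : ℕ → Prop := fun s => ∃ w ∈ C, T.kB w = (s, 0) with hV
  have hVn : ∀ {s : ℕ} {w : T.Cell}, T.kB w = (s, 0) → (V s ↔ w ∈ C) := by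
    intro s w hw
    refine ⟨?_, fun h => ⟨w, h, hw⟩⟩
    rintro ⟨w', h1, h2⟩
    rw [hinj (hw.trans h2.symm)]
    exact h1
  -- the top cell of a column
  have htop : ∀ s < k, ∃ w : Σ e, Fin (T.sz e), T.al w.1 + w.2 = s ∧ T.yt w.1 + T.sz w.1 = h ∧
      (Sum.inl w ∈ C ↔ V s) ∧ (Sum.inl w ∈ C ↔ V (s + h)) := by
    intro s hs
    obtain ⟨w, h1, h2⟩ := T.exists_top hh hs
    refine ⟨w, h1, h2, ?_, ?_⟩
    · obtain ⟨w₁, h3, h4⟩ := T.inv_col hb (W := fun w => w ∈ C) hCb (s := s) _ w h1 rfl
      rw [hVn h3]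
      exact h4
    · have h3 : T.kB (b (Sum.inl w)) = (s + h, 0) := by
        rw [hb]
        simp only [kB', h1]
        rw [if_neg (by omega)]
      rw [hVn h3, hCb]
  have hV1 : ∀ s < k, (V s ↔ V (s + h)) := by
    intro s hs
    obtain ⟨w, -, -, h3, h4⟩ := htop s hs
    exact h3.symm.trans h4
  have hV2 : ∀ j < h, (V (j + k) ↔ V j) := by
    intro j hj
    have h3 : T.kB (Sum.inr ⟨j, hj⟩) = (j + k, 0) := rfl
    have h4 : T.kB (b (Sum.inr ⟨j, hj⟩)) = (j, 0) := by rw [hb]; rfl
    rw [hVn h3, hVn h4, hCb]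
  -- the residue class
  have hrow : Sum.inr ⟨(T.kA w₀).1, T.row_lt w₀⟩ ∈ C :=
    (T.inv_a ha (W := fun w => w ∈ C) hCa w₀).1 hw₀
  have hVr : V ((T.kA w₀).1 + k) := ⟨_, hrow, rfl⟩
  constructor
  swap
  · intro hs2
    -- every cell is in the set
    have hcl : ∀ w : Σ e, Fin (T.sz e), Sum.inl w ∈ C ↔ V (T.al w.1 + w.2) := by
      intro w
      obtain ⟨w₁, h3, h4⟩ := T.inv_col hb (W := fun w => w ∈ C) hCb (s := T.al w.1 + w.2) _ w rfl rfl
      rw [hVn h3]
      exact h4
    have hcr : ∀ j : Fin h, Sum.inr j ∈ C ↔ V (j + k) := by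
      intro j
      have h3 : T.kB (Sum.inr j) = (j + k, 0) := rfl
      rw [hVn h3]
    have hcl' : ∀ w : Σ e, Fin (T.sz e), Sum.inl w ∈ C ↔ V (T.yt w.1 + w.2 + k) := by
      intro w
      have h3 := T.inv_a ha (W := fun w => w ∈ C) hCa (Sum.inl w)
      exact h3.trans (hcr ⟨(T.kA (Sum.inl w)).1, T.row_lt _⟩)
    have hall : ∀ w, w ∈ C := by
      rcases Pool.Agent.Helper32.TI.conn_of_part univ T.al T.yt T.sz h k hh hk
        (fun e _ => T.colb e) (fun e _ => T.rowb e) (fun i hi j hj => T.part_sum hi hj)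
        (Or.inr hs2) V (fun j => V (j + k)) (fun e _ c hc =>
          (hcl ⟨e, ⟨c, hc⟩⟩).symm.trans (hcl' ⟨e, ⟨c, hc⟩⟩)) with ⟨h1, h2⟩ | ⟨h1, h2⟩
      · rintro (w | j)
        · rw [hcl]
          apply h1
          have := T.colb w.1
          have := w.2.2
          omega
        · rw [hcr]
          exact h2 j j.2
      · exact absurd hVr (h2 _ (T.row_lt w₀))
    refine ⟨?_, ?_, ?_, ?_⟩
    · intro e he z
      obtain ⟨w', hw'⟩ := a.surjective (Sum.inl ⟨e, ⟨0, T.pos e⟩⟩)
      have h1 := ha w'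
      rw [hw'] at h1
      rcases w' with w' | j
      · have := T.pos w'.1
        simp only [kA, kA', Prod.mk.injEq] at h1
        omega
      · have h2 := (hE _ (hall (Sum.inr j)) z).2.1
        rw [hw'] at h2
        exact h2
    · intro e he z
      have h1 := ha (Sum.inl ⟨e, ⟨0, T.pos e⟩⟩)
      have h2 := (hE _ (hall (Sum.inl ⟨e, ⟨0, T.pos e⟩⟩)) z).2.1
      rcases hw' : a (Sum.inl ⟨e, ⟨0, T.pos e⟩⟩) with w' | j
      · rw [hw'] at h1
        simp only [kA, kA', Prod.mk.injEq] at h1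
        have := T.pos w'.1
        have := T.colb w'.1
        omega
      · rw [hw'] at h2
        exact h2
    · intro e e' j h3 h4 h5 h6 h7 z
      have h1 := ha (Sum.inl ⟨e, ⟨j - T.yt e, by omega⟩⟩)
      have h2 := (hE _ (hall (Sum.inl ⟨e, ⟨j - T.yt e, by omega⟩⟩)) z).2.1
      rcases hw' : a (Sum.inl ⟨e, ⟨j - T.yt e, by omega⟩⟩) with w' | i
      · rw [hw'] at h1 h2
        simp only [kA, kA', Prod.mk.injEq] at h1
        have c1 := w'.2.2
        have p1 := T.pos w'.1
        have p2 := T.pos e'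
        have hee : w'.1 = e' := T.disj w'.1 e' (T.al e') j ⟨by omega, by omega, by omega, by omega⟩
          ⟨le_rfl, by omega, h5, h6⟩
        have h8 : T.lt w'.1 z = T.rt e z := h2
        rw [hee] at h8
        exact h8
      · rw [hw'] at h1
        simp only [kA, kA', Prod.mk.injEq] at h1
        have p1 := T.pos e'
        have p2 := T.colb e'
        omega
    · intro e z
      have h2 := (hE _ (hall (Sum.inl ⟨e, ⟨0, T.pos e⟩⟩)) z).1
      have h3 : T.rt e ((T.lt e).symm z)
          = (T.up e * f (T.al e + 0)) ((T.lo e * f (T.al e + 0)).symm z) := h2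
      have h4 : (T.lo e * f (T.al e + 0)).symm z
          = (f (T.al e + 0)).symm ((T.lo e).symm z) := rfl
      rw [h4, RelIso.mul_apply, OrderIso.apply_symm_apply] at h3
      exact h3
  obtain ⟨s, hs, hsr, hjump⟩ := f3 (((T.kA w₀).1 + k) % d) (Nat.mod_lt _ hd0)
  have hVs : V s := by
    refine (Pool.Agent.Helper32.TI.res_conn V hV1 hV2 (s := (T.kA w₀).1 + k) (s' := s) ?_ ?_ ?_).1 hVr
    · have := T.row_lt w₀
      omega
    · omega
    · rw [← hd, hsr]
  apply hjump
  obtain ⟨w, h1, h2, h3, -⟩ := htop s hs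
  intro x
  have h4 := (hE _ (h3.2 hVs) x).2.2
  have h5 : T.kB (b (Sum.inl w)) = (s + h, 0) := by
    rw [hb]
    simp only [kB', h1]
    rw [if_neg (by omega)]
  have h6 : (T.up w.1 * f (T.al w.1 + w.2)) x = A (f s x) := by
    rw [RelIso.mul_apply, h1, T.top w.1 h2]
  rcases hw' : b (Sum.inl w) with w' | i'
  · rw [hw'] at h4 h5
    simp only [kB, Prod.mk.injEq] at h5
    have h7 : (T.up w.1 * f (T.al w.1 + w.2)) x = (T.lo w'.1 * f (T.al w'.1 + w'.2)) x := h4
    rw [h6] at h7
    rw [h7, RelIso.mul_apply, h5.1, T.bot w'.1 h5.2]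
  · rw [hw'] at h4 h5
    simp only [kB, Prod.mk.injEq, and_true] at h5
    have h7 : (T.up w.1 * f (T.al w.1 + w.2)) x = f (i' + k) x := h4
    rw [h6] at h7
    rw [h7, h5]

/-- the weak form -/
theorem rect_gcd (hk : 0 < k) (hh : 0 < h) (hsum : ∑ e, T.sz e < h + k + Nat.gcd h k)
    (comm : ∀ z, A (M z) = M (A z))
    (hAM : ∀ z, (A ^ (k / Nat.gcd h k)) z ≤ (M ^ (h / Nat.gcd h k)) z) :
    ∀ z, (A ^ (k / Nat.gcd h k)) z = (M ^ (h / Nat.gcd h k)) z :=
  (T.rect_core hk hh hsum comm hAM).1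

/-- the rigid form -/
theorem rect_gcd_eq (hk : 0 < k) (hh : 0 < h) (hsum : ∑ e, T.sz e + 2 = h + k + Nat.gcd h k)
    (comm : ∀ z, A (M z) = M (A z))
    (hAM : ∀ z, (A ^ (k / Nat.gcd h k)) z ≤ (M ^ (h / Nat.gcd h k)) z) :
    (∀ z, (A ^ (k / Nat.gcd h k)) z = (M ^ (h / Nat.gcd h k)) z) ∧
      (∀ e, T.al e = 0 → ∀ z, T.lt e z = z) ∧
      (∀ e, T.al e + T.sz e = k → ∀ z, M z = T.rt e z) ∧
      (∀ e e' j, T.yt e ≤ j → j < T.yt e + T.sz e → T.yt e' ≤ j → j < T.yt e' + T.sz e' →
        T.al e + T.sz e = T.al e' → ∀ z, T.lt e' z = T.rt e z) ∧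
      ∀ e z, T.rt e ((T.lt e).symm z) = T.up e ((T.lo e).symm z) := by
  have h1 := T.rect_core hk hh (by omega) comm hAM
  exact ⟨h1.1, h1.2 hsum⟩

end Pool.Agent.Helper61.TL.Tiling
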