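import Pool.Agent.Helper89.TL.Rect
import Pool.Agent.Helper32.TI.Gcd

/-!
# Dissections into rectangles, from the dissections into squares (helper32)

`Squares T` is the conclusion of block R (`RTiling.squares`).
-/

set_option autoImplicit false

open Finset

namespace Pool.Agent.Helper89.TL

open Pool.Agent.Helper61.TL (Tiling)

variable {X : Type*} [LinearOrder X] {h k : ℕ} {τ M : X ≃o X} {ι : Type} [Fintype ι]

/-- the conclusion of block R -/
def Squares (T : RTiling X h k τ M ι) : Prop :=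
  ∃ (κ : Type) (_ : Fintype κ) (U : Tiling Xᵒᵈ h k τ.dual M.dual κ),
    ∑ e, U.sz e = ∑ e, (T.wd e + T.ht e - Nat.gcd (T.wd e) (T.ht e)) ∧
    (∀ e, T.al e = 0 → ∀ j, In (T.yt e) (T.ht e) j →
      ∃ f, U.al f = 0 ∧ In (U.yt f) (U.sz f) j ∧ U.lt f = (T.lt e).dual) ∧
    (∀ e, T.al e + T.wd e = k → ∀ j, In (T.yt e) (T.ht e) j →
      ∃ f, U.al f + U.sz f = k ∧ In (U.yt f) (U.sz f) j ∧ U.rt f = (T.rt e).dual) ∧
    (∀ e e' j, In (T.yt e) (T.ht e) j → In (T.yt e') (T.ht e') j → T.al e + T.wd e = T.al e' →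
      ∃ f f', In (U.yt f) (U.sz f) j ∧ In (U.yt f') (U.sz f') j ∧ U.al f + U.sz f = U.al f' ∧
        U.rt f = (T.rt e).dual ∧ U.lt f' = (T.lt e').dual)

lemma dual_apply (f : X ≃o X) (z : X) : f.dual (OrderDual.toDual z) = OrderDual.toDual (f z) := rfl

lemma dual_pow (f : X ≃o X) (n : ℕ) (z : X) :
    (f.dual ^ n) (OrderDual.toDual z) = OrderDual.toDual ((f ^ n) z) := by
  induction n with
  | zero => rfl
  | succ n ih => rw [pow_succ', RelIso.mul_apply, ih, dual_apply, pow_succ', RelIso.mul_apply]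

lemma dual_hyp (n m : ℕ) (hle : ∀ z, (M ^ n) z ≤ (τ ^ m) z) :
    ∀ z : Xᵒᵈ, (τ.dual ^ m) z ≤ (M.dual ^ n) z := by
  intro z
  have h1 := dual_pow τ m (OrderDual.ofDual z)
  have h2 := dual_pow M n (OrderDual.ofDual z)
  rw [OrderDual.toDual_ofDual] at h1 h2
  rw [h1, h2, OrderDual.toDual_le_toDual]
  exact hle _

lemma dual_comm (hc : Commute τ M) : ∀ z : Xᵒᵈ, τ.dual (M.dual z) = M.dual (τ.dual z) := by
  intro z
  have h1 : τ (M (OrderDual.ofDual z)) = M (τ (OrderDual.ofDual z)) := by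
    rw [← RelIso.mul_apply, hc.eq, RelIso.mul_apply]
  exact congrArg OrderDual.toDual h1

theorem RTiling.weak_of [Nonempty X] (T : RTiling X h k τ M ι) (hsq : Squares T) (hh : 0 < h)
    (hk : 0 < k) (hc : Commute τ M)
    (hsum : ∑ e, (T.wd e + T.ht e - Nat.gcd (T.wd e) (T.ht e)) < h + k + Nat.gcd h k) :
    ∃ z, (τ ^ (k / Nat.gcd h k)) z ≤ (M ^ (h / Nat.gcd h k)) z := by
  obtain ⟨κ, _, U, hU, -⟩ := hsq
  by_contra hno
  push Not at hno
  have h1 := U.rect_gcd hk hh (by rw [hU]; exact hsum) (dual_comm hc)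
    (dual_hyp _ _ fun z => (hno z).le)
  obtain ⟨z⟩ := ‹Nonempty X›
  have h2 := h1 (OrderDual.toDual z)
  rw [dual_pow, dual_pow] at h2
  exact absurd (OrderDual.toDual.injective h2) (hno z).ne'

theorem RTiling.rigid_of (T : RTiling X h k τ M ι) (hsq : Squares T) (hh : 0 < h) (hk : 0 < k)
    (hc : Commute τ M)
    (hsum : ∑ e, (T.wd e + T.ht e - Nat.gcd (T.wd e) (T.ht e)) + 2 = h + k + Nat.gcd h k)
    (hle : ∀ z, (M ^ (h / Nat.gcd h k)) z ≤ (τ ^ (k / Nat.gcd h k)) z) :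
    (∀ z, (M ^ (h / Nat.gcd h k)) z = (τ ^ (k / Nat.gcd h k)) z) ∧
    (∀ e, T.al e = 0 → ∀ z, T.lt e z = z) ∧ (∀ e, T.al e + T.wd e = k → ∀ z, T.rt e z = M z) ∧
    (∀ e e' j, In (T.yt e) (T.ht e) j → In (T.yt e') (T.ht e') j → T.al e + T.wd e = T.al e' →
      ∀ z, T.rt e z = T.lt e' z) := by
  obtain ⟨κ, _, U, hU, q1, q2, q3⟩ := hsq
  obtain ⟨h1, h2, h3, h4, -⟩ := U.rect_gcd_eq hk hh (by rw [hU]; exact hsum) (dual_comm hc)
    (dual_hyp _ _ hle)
  refine ⟨?_, ?_, ?_, ?_⟩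
  · intro z
    have h5 := h1 (OrderDual.toDual z)
    rw [dual_pow, dual_pow] at h5
    exact (OrderDual.toDual.injective h5).symm
  · intro e he z
    obtain ⟨f, g1, -, g3⟩ := q1 e he (T.yt e) ⟨le_rfl, by have := T.ht_pos e; omega⟩
    have h5 := h2 f g1 (OrderDual.toDual z)
    rw [g3, dual_apply] at h5
    exact OrderDual.toDual.injective h5
  · intro e he z
    obtain ⟨f, g1, -, g3⟩ := q2 e he (T.yt e) ⟨le_rfl, by have := T.ht_pos e; omega⟩
    have h5 := h3 f g1 (OrderDual.toDual z)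
    rw [g3, dual_apply, dual_apply] at h5
    exact (OrderDual.toDual.injective h5).symm
  · intro e e' j j1 j2 j3 z
    obtain ⟨f, f', g1, g2, g3, g4, g5⟩ := q3 e e' j j1 j2 j3
    have h5 := h4 f f' j g1.1 g1.2 g2.1 g2.2 g3 (OrderDual.toDual z)
    rw [g4, g5, dual_apply, dual_apply] at h5
    exact (OrderDual.toDual.injective h5).symm

end Pool.Agent.Helper89.TL
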