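import Pool.Agent.Helper32.TI.RT
import Pool.Agent.Helper33.TL.Squares

/-!
# Dissections into rectangles: the rigid form (helper32)
-/

set_option autoImplicit false

open Finset

namespace Pool.Agent.Helper32.TI

open Pool.Agent.Helper89.TL

variable {X : Type*} [LinearOrder X] {h k : ℕ} {τ M : X ≃o X} {ι : Type} [Fintype ι]

theorem weak [Nonempty X] (T : RTiling X h k τ M ι) (hh : 0 < h)
    (hk : 0 < k) (hc : Commute τ M)
    (hsum : ∑ e, (T.wd e + T.ht e - Nat.gcd (T.wd e) (T.ht e)) < h + k + Nat.gcd h k) :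
    ∃ z, (τ ^ (k / Nat.gcd h k)) z ≤ (M ^ (h / Nat.gcd h k)) z :=
  T.weak_of T.squares hh hk hc hsum

theorem rigid (T : RTiling X h k τ M ι) (hh : 0 < h) (hk : 0 < k)
    (hc : Commute τ M)
    (hsum : ∑ e, (T.wd e + T.ht e - Nat.gcd (T.wd e) (T.ht e)) + 2 = h + k + Nat.gcd h k)
    (hle : ∀ z, (M ^ (h / Nat.gcd h k)) z ≤ (τ ^ (k / Nat.gcd h k)) z) :
    (∀ z, (M ^ (h / Nat.gcd h k)) z = (τ ^ (k / Nat.gcd h k)) z) ∧
    (∀ e, T.al e = 0 → ∀ z, T.lt e z = z) ∧ (∀ e, T.al e + T.wd e = k → ∀ z, T.rt e z = M z) ∧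
    (∀ e e' j, In (T.yt e) (T.ht e) j → In (T.yt e') (T.ht e') j → T.al e + T.wd e = T.al e' →
      ∀ z, T.rt e z = T.lt e' z) :=
  T.rigid_of T.squares hh hk hc hsum hle

end Pool.Agent.Helper32.TI
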